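import Pool.Agent.H73.GMS.Stmts

/-!
Row ABS of the board gms (MP_213ba5_lc): the abstract dichotomy.
-/

set_option autoImplicit false

open Classical

namespace GMS

/-- a finite subset of the union of an increasing sequence lies in one member -/
theorem abs_finite {α : Type*} {F : ℕ → Set α} (hF : Monotone F) {T : Set α} (hT : T.Finite) :
    T ⊆ ⋃ n, F n → ∃ n, T ⊆ F n := by
  refine Set.Finite.induction_on T hT (fun _ => ⟨0, Set.empty_subset _⟩) ?_
  intro a S _ _ ih h
  obtain ⟨n, hn⟩ := ih ((Set.subset_insert a S).trans h)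
  obtain ⟨m, hm⟩ := Set.mem_iUnion.mp (h (Set.mem_insert a S))
  refine ⟨max n m, ?_⟩
  rw [Set.insert_subset_iff]
  exact ⟨hF (le_max_right n m) hm, hn.trans (hF (le_max_left n m))⟩

theorem ABS (α : Type*) (h1 : SPLStmt α) : ABSStmt α := by
  intro hc Good hFC
  obtain ⟨hG0, hGmono, hGfin⟩ := hFC
  rw [or_iff_not_imp_left]
  intro hyp
  rcases isEmpty_or_nonempty α with hα | hα
  · refine absurd ⟨∅, ⟨hG0, fun T _ _ => ?_⟩, ∅, Set.Subset.rfl, Set.finite_empty, fun N' _ _ => ?_⟩ hyp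
    · exact Set.eq_empty_of_isEmpty T
    · exact Set.eq_empty_of_isEmpty N'
  obtain ⟨a, ha⟩ := exists_surjective_nat α
  have hsp := h1 Good ⟨hG0, hGmono, hGfin⟩ (fun N hN T hT hTf => by
    by_contra hcon
    push Not at hcon
    exact hyp ⟨N, hN, T, hT, hTf, fun N' h2 h3 => hcon N' h2 h3⟩)
  have H : ∀ (S : {S : Set α // S.Finite ∧ Good S}) (n : ℕ),
      ∃ S₀ S₁ : {S : Set α // S.Finite ∧ Good S}, S.1 ⊆ S₀.1 ∧ S.1 ⊆ S₁.1 ∧
        (∀ T, Good T → ¬ (S₀.1 ⊆ T ∧ S₁.1 ⊆ T)) ∧
        (a n ∈ S₀.1 ∨ ¬ Good (S₀.1 ∪ {a n})) ∧ (a n ∈ S₁.1 ∨ ¬ Good (S₁.1 ∪ {a n})) := by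
    intro S n
    obtain ⟨S₀, S₁, f0, f1, g0, g1, e0, e1, d, m0, m1⟩ := hsp S.1 (a n) S.2.1 S.2.2
    exact ⟨⟨S₀, f0, g0⟩, ⟨S₁, f1, g1⟩, e0, e1, d, m0, m1⟩
  choose s0 s1 e0 e1 hd m0 m1 using H
  obtain ⟨F, hF0, hFs⟩ : ∃ F : (ℕ → Bool) → ℕ → {S : Set α // S.Finite ∧ Good S},
      (∀ x, F x 0 = ⟨∅, Set.finite_empty, hG0⟩) ∧
      ∀ x n, F x (n + 1) = if x n = true then s1 (F x n) n else s0 (F x n) n :=
    ⟨fun x n => Nat.rec ⟨∅, Set.finite_empty, hG0⟩
      (fun n S => if x n = true then s1 S n else s0 S n) n, fun _ => rfl, fun _ _ => rfl⟩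
  have hmono : ∀ x, Monotone fun n => (F x n).1 := fun x => by
    refine monotone_nat_of_le_succ fun n => ?_
    change (F x n).1 ⊆ (F x (n + 1)).1
    rw [hFs]
    split_ifs
    · exact e1 _ _
    · exact e0 _ _
  have hgood : ∀ x, Good (⋃ n, (F x n).1) := fun x => by
    refine hGfin _ fun T hT hTf => ?_
    obtain ⟨n, hn⟩ := abs_finite (hmono x) hTf hT
    exact hGmono _ _ hn (F x n).2.2
  refine ⟨fun x => ⋃ n, (F x n).1, ?_, fun x => ⟨hgood x, fun T hT hsub => ?_⟩⟩
  · intro x y hxy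
    by_contra hne
    have hex : ∃ n, x n ≠ y n := by
      by_contra hcon
      push Not at hcon
      exact hne (funext hcon)
    have hxy' : (⋃ n, (F x n).1) = ⋃ n, (F y n).1 := hxy
    have hlt : ∀ m, m ≤ Nat.find hex → F x m = F y m := by
      intro m
      induction m with
      | zero => intro _; rw [hF0, hF0]
      | succ m ih =>
        intro hm
        have h2 : x m = y m := by
          by_contra h3
          exact Nat.find_min hex (by omega) h3
        rw [hFs, hFs, ih (by omega), h2]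
    have hN := hlt _ le_rfl
    have hdiff := Nat.find_spec hex
    generalize Nat.find hex = n at hN hdiff
    have hx : (F x (n + 1)).1 ⊆ ⋃ n, (F x n).1 := Set.subset_iUnion (fun n => (F x n).1) (n + 1)
    have hy : (F y (n + 1)).1 ⊆ ⋃ n, (F x n).1 := by
      rw [hxy']
      exact Set.subset_iUnion (fun n => (F y n).1) (n + 1)
    rw [hFs] at hx hy
    rw [← hN] at hy
    cases hxn : x n with
    | false =>
      have hyn : y n = true := by
        cases hyn : y n with
        | false => exact absurd (hxn.trans hyn.symm) hdiff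
        | true => rfl
      simp only [hxn, hyn, Bool.false_eq_true, if_false, if_true] at hx hy
      exact hd (F x n) n _ (hgood x) ⟨hx, hy⟩
    | true =>
      have hyn : y n = false := by
        cases hyn : y n with
        | false => rfl
        | true => exact absurd (hxn.trans hyn.symm) hdiff
      simp only [hxn, hyn, Bool.false_eq_true, if_false, if_true] at hx hy
      exact hd (F x n) n _ (hgood x) ⟨hy, hx⟩
  · refine Set.Subset.antisymm (fun v hv => ?_) hsub
    obtain ⟨n, rfl⟩ := ha v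
    have hsn : (F x (n + 1)).1 ⊆ ⋃ n, (F x n).1 := Set.subset_iUnion (fun n => (F x n).1) (n + 1)
    have hdec : a n ∈ (F x (n + 1)).1 ∨ ¬ Good ((F x (n + 1)).1 ∪ {a n}) := by
      rw [hFs]
      split_ifs
      · exact m1 _ _
      · exact m0 _ _
    rcases hdec with h2 | h2
    · exact hsn h2
    · exact absurd (hGmono _ _ (Set.union_subset (hsn.trans hsub) (Set.singleton_subset_iff.mpr hv)) hT) h2

end GMS
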