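import Pool.Agent.H73.GMS.Stmts

/-!
Row RBO of the board gms (MP_213ba5_lc): enumerable predicates are closed under `or` and finite `and`.
-/

set_option autoImplicit false

open Classical

namespace GMS

theorem rbo_and {A : Type} [Primcodable A] {p q : A → Prop} (hp : REPred p) (hq : REPred q) :
    REPred (fun a => p a ∧ q a) := by
  have hq' : Partrec₂ fun (a : A) (_ : Unit) => Part.assert (q a) fun _ => Part.some () :=
    Partrec.comp hq Computable.fst
  have h := (Partrec.bind hp hq').dom_re
  refine h.of_eq fun a => ?_
  simp [Part.assert, Part.bind]

theorem RBO (A : Type) [Primcodable A] : RBOStmt A := by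
  refine ⟨fun p q hp hq => ?_, fun r => ?_⟩
  · obtain ⟨k, hk, h⟩ := Partrec.merge' hp hq
    refine hk.dom_re.of_eq fun a => ?_
    rw [(h a).2]
    simp [Part.assert]
  · induction r with
    | zero =>
      intro p _
      have h : REPred (fun _ : A => True) := (Computable.const ()).partrec.dom_re
      refine h.of_eq fun a => ?_
      simp
    | succ r ih =>
      intro p hp
      refine (rbo_and (hp 0) (ih (fun i => p i.succ) fun i => hp i.succ)).of_eq fun a => ?_
      exact (Fin.forall_fin_succ (P := fun i => p i a)).symm

end GMS
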